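import Mathlib
import Pool.Agent.Lib.MP_b2463a_co.Log.Weighted

namespace Pool.Agent.Results.MP_b2463a_co.LogEnergy

open Classical in
theorem result : ∃ C : ℝ, ∀ R : ℝ, 0 < R → ∀ P : Finset (EuclideanSpace ℝ (Fin 3)),
    (∀ p ∈ P, ‖p‖ = R) → 2 ≤ P.card → ∀ f : EuclideanSpace ℝ (Fin 3) → ℝ,
    ∑ q ∈ (P ×ˢ P ×ˢ P ×ˢ P).filter fun q => q.1 + q.2.1 = q.2.2.1 + q.2.2.2,
        f q.1 * f q.2.1 * f q.2.2.1 * f q.2.2.2 ≤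
      C * (∑ p ∈ P, f p ^ 2) ^ 2 * Real.log P.card :=
  Pool.Agent.Lib.MP_b2463a_co.Log.mainW

end Pool.Agent.Results.MP_b2463a_co.LogEnergy
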